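import Pool.Agent.Helper23.CYC.C5d
import Pool.Agent.Helper91.CYC.PieceA

/-!
# C5: the core of the even case from E2, C3, C4, the norm form and the end
-/

set_option autoImplicit false

namespace Pool.Agent.Helper23.CYC

open Finset Polynomial Pool.Agent.Helper42.CYC Pool.Agent.Helper10.CYC

section

variable {Lam K : Type} [CommRing Lam] [CharP Lam 2] [Field K] [CharP K 2] [IsAlgClosed K]
  {red : Lam →+* K} {α : Lam} {h : ℕ} {S g f : Lam[X]} {V : Finset K} {p : K → ℕ} {Mi : Finset K}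

omit [Field K] [CharP K 2] [IsAlgClosed K] in
lemma nontriv : Nontrivial Lam := CharP.nontrivial_of_char_ne_one (R := Lam) (v := 2) (by norm_num)

lemma f_unit (hF : FO red α h S g f) (hunit : ∀ x, red x ≠ 0 → IsUnit x) (h0 : (0 : K) ∉ V)
    (hS : S.map red = ∏ v ∈ V, (X - C (v ^ 2)) ^ (p v)) : IsUnit (f.coeff 0) := by
  apply hunit
  have h1 := fo_coeff_even hF 0
  rw [Nat.mul_zero] at h1
  rw [h1, ← coeff_map, hS, coeff_zero_eq_eval_zero, eval_prod]
  refine prod_ne_zero_iff.2 (fun v hv => ?_)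
  rw [eval_pow, eval_sub, eval_X, eval_C, zero_sub]
  refine pow_ne_zero _ (neg_ne_zero.2 (pow_ne_zero 2 (fun h => h0 (h ▸ hv))))

lemma eval_map_C_C {K : Type} [CommRing K] (P : K[X]) (a : K) :
    eval (C a) (P.map (C : K →+* K[X])) = C (P.eval a) := by
  rw [eval_map, eval₂_at_apply]

omit [CharP Lam 2] in
lemma colT_eq (k s : ℕ) (Γ ψ : Lam[X]) :
    colT k s Γ ψ = col0 k s (Γ.map C * (1 + C X * X)) (ψ.map C) := rfl

omit [CharP Lam 2] in
lemma gam_eq (A B : Lam[X]) :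
    (Polynomial.expand Lam 2 B + X * Polynomial.expand Lam 2 A).map C * (1 + C X * X)
      = Polynomial.expand Lam[X] 2 (B.map C + C X * (X * A.map C))
        + X * Polynomial.expand Lam[X] 2 (A.map C + C X * B.map C) := by
  rw [Polynomial.map_add, Polynomial.map_mul, Polynomial.map_expand, Polynomial.map_expand,
    Polynomial.map_X, map_add, map_add, map_mul, map_mul, map_mul, expand_C, expand_X]
  ring

/-- C3 in the form needed for E2. -/
lemma c3_poly (hC3 : ST_C3) (hh : 1 ≤ h) (hsurj : Function.Surjective red)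
    (hF : FO red α h S g f) (hp : ∀ v ∈ V, 1 ≤ p v) (hM : Mi ⊆ V)
    (hS : S.map red = ∏ v ∈ V, (X - C (v ^ 2)) ^ (p v))
    (hg : g.map red = ∑ ρ ∈ Mi, C ρ * ∏ v ∈ V, (X - C (v ^ 2)) ^ (pm p ρ v)) (A B : Lam[X]) :
    ∃ x : Lam[X], dd (f.map C) (colT (2 * h) (h - 1)
        (Polynomial.expand Lam 2 B + X * Polynomial.expand Lam 2 A) 1) = C α * x ∧
      x.map red = ∑ ρ ∈ Mi, C ρ * ∏ v ∈ V,
        (C ((A.map red).eval (v ^ 2)) + C ((B.map red).eval (v ^ 2)) * X) ^ (pm p ρ v) := by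
  classical
  obtain ⟨w, hw, hc⟩ := exists_list V p h (sum_p hF hS)
  have hix : ∀ ρ : K, ∃ i : Fin h, ρ ∈ Mi → w i = ρ := by
    intro ρ
    by_cases hρ : ρ ∈ Mi
    · have h1 := hc ρ (hM hρ)
      have h2 := hp ρ (hM hρ)
      rw [← h1] at h2
      obtain ⟨i, hi⟩ := Finset.card_pos.1 h2
      exact ⟨i, fun _ => (mem_filter.1 hi).2⟩
    · exact ⟨⟨0, by omega⟩, fun h => absurd h hρ⟩
  choose ix hix using hix
  have hinj : Set.InjOn ix Mi := by
    intro a ha b hb hab
    rw [← hix a ha, hab, hix b hb]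
  have hsum : ∀ (M : Type) [AddCommMonoid M] (F : Fin h → M),
      ∑ m ∈ Mi.image ix, F m = ∑ ρ ∈ Mi, F (ix ρ) := by
    intro M _ F
    exact Finset.sum_image hinj
  have hpm : ∀ ρ ∈ Mi, ∀ v, (p v - if v = w (ix ρ) then 1 else 0) = pm p ρ v := by
    intro ρ hρ v
    rw [hix ρ hρ, pm]
  have hres := hC3 Lam[X] K[X] (Polynomial.mapRingHom red) (C α) h hh (S.map C) (g.map C)
    (f.map C) (fo_poly hF) (Polynomial.map_surjective red hsurj) (fun i => C ((w i) ^ 2)) ?_
    (Mi.image ix) (fun m => C (w m)) ?_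
    (B.map C + C X * (X * A.map C)) (A.map C + C X * B.map C)
  · obtain ⟨x, hx1, hx2⟩ := hres
    refine ⟨x, ?_, ?_⟩
    · rw [← hx1, colT_eq, gam_eq, Polynomial.map_one]
    · rw [coe_mapRingHom] at hx2
      rw [hx2, hsum]
      refine sum_congr rfl (fun ρ hρ => ?_)
      rw [hix ρ hρ]
      congr 1
      rw [prod_list_erase V p w hw hc (fun v => eval (C (v ^ 2))
        ((A.map C + C X * B.map C : Lam[X][X]).map (Polynomial.mapRingHom red))) (ix ρ)]
      refine prod_congr rfl (fun v _ => ?_)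
      rw [hpm ρ hρ]
      congr 1
      rw [Polynomial.map_add, Polynomial.map_mul, map_C_red, map_C_red, Polynomial.map_C,
        coe_mapRingHom, Polynomial.map_X, eval_add, eval_mul, eval_C, eval_map_C_C, eval_map_C_C,
        mul_comm X]
  · rw [map_C_red, hS, Polynomial.map_prod,
      prod_list V p w hw hc (fun v => (X - C (C (v ^ 2)) : K[X][X]))]
    refine prod_congr rfl (fun v _ => ?_)
    rw [Polynomial.map_pow, Polynomial.map_sub, Polynomial.map_X, Polynomial.map_C]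
  · rw [map_C_red, hg, hsum, Polynomial.map_sum]
    refine sum_congr rfl (fun ρ hρ => ?_)
    rw [hix ρ hρ, Polynomial.map_mul, Polynomial.map_C, Polynomial.map_prod]
    congr 1
    rw [prod_list_erase V p w hw hc (fun v => (X - C (C (v ^ 2)) : K[X][X])) (ix ρ)]
    refine prod_congr rfl (fun v _ => ?_)
    rw [hpm ρ hρ, Polynomial.map_pow, Polynomial.map_sub, Polynomial.map_X, Polynomial.map_C]

/-- the inverse series of the reversed `f` -/
noncomputable def Hf (f : Lam[X]) : PowerSeries Lam :=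
  PowerSeries.invOfUnit (f.reverse : PowerSeries Lam) 1

omit [CharP Lam 2] in
lemma Hf_mul (hF : FO red α h S g f) : Hf f * (f.reverse : PowerSeries Lam) = 1 := by
  rw [mul_comm]
  refine PowerSeries.mul_invOfUnit _ 1 ?_
  rw [← PowerSeries.coeff_zero_eq_constantCoeff_apply, Polynomial.coeff_coe, coeff_zero_reverse,
    (fo_monic hF).leadingCoeff]
  rfl

omit [CharP Lam 2] [CharP K 2] [IsAlgClosed K] in
lemma coeff_mul_coe (H : PowerSeries Lam) (x : Lam[X]) (N : ℕ) :
    PowerSeries.coeff N (H * (x : PowerSeries Lam))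
      = ∑ n ∈ range (N + 1), PowerSeries.coeff (N - n) H * x.coeff n := by
  rw [mul_comm, PowerSeries.coeff_mul, Finset.Nat.sum_antidiagonal_eq_sum_range_succ_mk]
  refine sum_congr rfl (fun n _ => ?_)
  rw [Polynomial.coeff_coe, mul_comm]

theorem partI (hE2 : ST_E2) (hC3 : ST_C3) (hh : 2 ≤ h) (hsurj : Function.Surjective red)
    (hα : ∀ x, α * x = 0 ↔ red x = 0) (hunit : ∀ x, red x ≠ 0 → IsUnit x)
    (hF : FO red α h S g f) (h0 : (0 : K) ∉ V) (hp : ∀ v ∈ V, 1 ≤ p v) (hM : Mi ⊆ V)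
    (hS : S.map red = ∏ v ∈ V, (X - C (v ^ 2)) ^ (p v))
    (hg : g.map red = ∑ ρ ∈ Mi, C ρ * ∏ v ∈ V, (X - C (v ^ 2)) ^ (pm p ρ v))
    (jj : ℕ) (hjj : 2 ≤ jj) (hjk : h - 1 + jj ≤ 2 * h)
    (hrel : ∀ z : Fin (2 * h), h - 1 ≤ (z : ℕ) → Rel f (h - 1 + jj) (u2 (2 * h) (h - 1) jj z)) :
    ∀ ρ ∈ Mi, ∀ j : K → ℕ, (∀ v ∈ V, Odd ((pm p ρ v).choose (j v))) →
    ∀ y, ∑ v ∈ V, j v + 1 = 2 * y → PowerSeries.coeff y (H0 red S) = 0 := by
  intro ρ hρ j hj y hy
  have := nontriv (Lam := Lam)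
  have hinf : Infinite K := IsAlgClosed.instInfinite
  have hV0 : ∀ v ∈ V, v ≠ 0 := fun v hv h => h0 (h ▸ hv)
  have hle : ∀ v ∈ V, j v ≤ pm p ρ v := by
    intro v hv
    by_contra hcon
    push Not at hcon
    have := hj v hv
    rw [Nat.choose_eq_zero_of_lt hcon] at this
    exact absurd this (by decide)
  have hsum : ∑ v ∈ V, (pm p ρ v - j v) + ∑ v ∈ V, j v = h - 1 := by
    have h4 := sum_pm (p := p) ρ (hM hρ) (hp ρ (hM hρ))
    rw [sum_p hF hS] at h4
    rw [← sum_add_distrib]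
    have h5 : ∑ v ∈ V, (pm p ρ v - j v + j v) = ∑ v ∈ V, pm p ρ v :=
      sum_congr rfl (fun v hv => Nat.sub_add_cancel (hle v hv))
    omega
  have key := extract_one' V Mi hM p hp h (fun n => red (PowerSeries.coeff n (Hf f))) ?_ ρ hρ
    (hV0 ρ (hM hρ)) (fun v => pm p ρ v - j v) ?_ (by omega)
  · have h1 : h - ∑ v ∈ V, (pm p ρ v - j v) = 2 * y := by omega
    rw [h1, coeff_even hF (by omega) (Hf f) (Hf_mul hF)] at key
    rw [H0, PowerSeries.coeff_map]
    exact key
  · intro a b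
    obtain ⟨A, hA⟩ := interp red hsurj V (fun v => v ^ 2) (sq_inj.injOn) a
    obtain ⟨B, hB⟩ := interp red hsurj V (fun v => v ^ 2) (sq_inj.injOn) b
    obtain ⟨x, hx1, hx2⟩ := c3_poly hC3 (by omega) hsurj hF hp hM hS hg A B
    have h1 := hE2 Lam (2 * h) (h - 1) jj (by omega) hjj hjk f (fo_monic hF) (fo_natDegree hF)
      (f_unit hF hunit h0 hS) hrel
      (Polynomial.expand Lam 2 B + X * Polynomial.expand Lam 2 A) 1 (Hf f) (Hf_mul hF)
    rw [hx1, show h - 1 + 1 = h by omega, Polynomial.coe_mul, Polynomial.coe_C, mul_left_comm,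
      PowerSeries.coeff_C_mul, hα, coeff_mul_coe, map_sum] at h1
    have h2 : ∀ n, red (x.coeff n) = ∑ ρ ∈ Mi, ρ * (∏ v ∈ V,
        (C (a v) + C (b v) * X) ^ (pm p ρ v) : K[X]).coeff n := by
      intro n
      rw [← coeff_map, hx2, finsetSum_coeff]
      refine sum_congr rfl (fun ρ _ => ?_)
      rw [coeff_C_mul]
      congr 2
      refine prod_congr rfl (fun v hv => ?_)
      rw [hA v hv, hB v hv]
    refine Eq.trans ?_ h1
    simp only [map_mul, h2, mul_sum]
    rw [sum_comm]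
    refine sum_congr rfl (fun n _ => sum_congr rfl (fun ρ _ => ?_))
    ring
  · intro v hv
    rw [Nat.choose_symm (hle v hv)]
    exact cast_ne_zero_of_odd _ (hj v hv)

/-- the generic norm -/
noncomputable def Dg (h : ℕ) (S A B : Lam[X]) : Lam[X] :=
  dd (S.map C) (fun j : Fin h =>
    (Polynomial.expand Lam[X] 2 (A.map C) + C X * X * Polynomial.expand Lam[X] 2 (B.map C))
      * X ^ (j : ℕ))

omit [CharP Lam 2] in
lemma gam4_eq (A B : Lam[X]) (μ : Lam) :
    (Polynomial.expand Lam 2 (Polynomial.expand Lam 2 A)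
        + X * C μ * Polynomial.expand Lam 2 (Polynomial.expand Lam 2 B)).map C * (1 + C X * X)
      = Polynomial.expand Lam[X] 2 (Polynomial.expand Lam[X] 2 (A.map C)
          + C (C μ * X) * X * Polynomial.expand Lam[X] 2 (B.map C))
        + X * Polynomial.expand Lam[X] 2 (Polynomial.expand Lam[X] 2
            (C (C μ) * B.map C + C X * A.map C)) := by
  rw [Polynomial.map_add, Polynomial.map_mul, Polynomial.map_mul, Polynomial.map_expand,
    Polynomial.map_expand, Polynomial.map_expand, Polynomial.map_expand, Polynomial.map_X,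
    Polynomial.map_C]
  simp only [map_add, map_mul, expand_C, expand_X]
  ring

omit [CharP Lam 2] in
lemma Dg_comp (hS : S.Monic) (A B : Lam[X]) (μ : Lam) :
    (Dg h S A B).comp (C μ * X) = dd (S.map C) (fun j : Fin h =>
      (Polynomial.expand Lam[X] 2 (A.map C)
        + C (C μ * X) * X * Polynomial.expand Lam[X] 2 (B.map C)) * X ^ (j : ℕ)) := by
  have h1 := Pool.Agent.Helper91.CYC.st_a1 Lam[X] Lam[X] (compRingHom (C μ * X)) h (S.map C)
    (hS.map C) (fun j : Fin h =>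
    (Polynomial.expand Lam[X] 2 (A.map C) + C X * X * Polynomial.expand Lam[X] 2 (B.map C))
      * X ^ (j : ℕ))
  rw [coe_compRingHom_apply] at h1
  have hC : ∀ P : Lam[X], (P.map C).map (compRingHom (C μ * X)) = P.map C := by
    intro P
    rw [Polynomial.map_map]
    congr 1
    ext x
    simp
  have hX : (compRingHom (C μ * X)) (X : Lam[X]) = C μ * X := by
    simp
  rw [Dg, h1, hC]
  congr 1
  funext j
  rw [Polynomial.map_mul, Polynomial.map_pow, Polynomial.map_add, Polynomial.map_mul,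
    Polynomial.map_mul, Polynomial.map_expand, Polynomial.map_expand, Polynomial.map_X,
    Polynomial.map_C, hC, hC, hX]

omit [IsAlgClosed K] in
/-- C4 in the form needed for E2. -/
lemma c4_poly (hC4 : ST_C4) (hF : FO red α h S g f) (A B : Lam[X]) (μ : Lam) :
    dd (f.map C) (colT (2 * h) h (Polynomial.expand Lam 2 (Polynomial.expand Lam 2 A)
        + X * C μ * Polynomial.expand Lam 2 (Polynomial.expand Lam 2 B)) X)
      = (Dg h S A B).comp (C μ * X) := by
  rw [colT_eq, gam4_eq, Polynomial.map_X, Dg_comp hF.monic]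
  exact hC4 Lam[X] K[X] (Polynomial.mapRingHom red) (C α) h (S.map C) (g.map C) (f.map C)
    (fo_poly hF) _ _

omit [CharP Lam 2] [CharP K 2] [IsAlgClosed K] in
lemma Dg_red (hN : ST_NORM) (hF : FO red α h S g f)
    (hS : S.map red = ∏ v ∈ V, (X - C (v ^ 2)) ^ (p v)) (A B : Lam[X]) :
    (Dg h S A B).map red = ∏ v ∈ V, (C ((A.map red).eval ((v ^ 2) ^ 2))
      + C (v ^ 2 * (B.map red).eval ((v ^ 2) ^ 2)) * X) ^ (p v) := by
  classical
  obtain ⟨w, hw, hc⟩ := exists_list V p h (sum_p hF hS)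
  have h1 := Pool.Agent.Helper91.CYC.st_a1 Lam[X] K[X] (Polynomial.mapRingHom red) h (S.map C)
    (hF.monic.map C) (fun j : Fin h =>
    (Polynomial.expand Lam[X] 2 (A.map C) + C X * X * Polynomial.expand Lam[X] 2 (B.map C))
      * X ^ (j : ℕ))
  have h2 : (S.map C).map (Polynomial.mapRingHom red) = ∏ i : Fin h, (X - C (C ((w i) ^ 2))) := by
    rw [map_C_red, hS, Polynomial.map_prod,
      prod_list V p w hw hc (fun v => (X - C (C (v ^ 2)) : K[X][X]))]
    refine prod_congr rfl (fun v _ => ?_)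
    rw [Polynomial.map_pow, Polynomial.map_sub, Polynomial.map_X, Polynomial.map_C]
  have h3 : (fun j : Fin h => ((Polynomial.expand Lam[X] 2 (A.map C)
      + C X * X * Polynomial.expand Lam[X] 2 (B.map C)) * X ^ (j : ℕ)).map
        (Polynomial.mapRingHom red))
      = (fun j : Fin h => (Polynomial.expand K[X] 2 ((A.map red).map C)
      + C X * X * Polynomial.expand K[X] 2 ((B.map red).map C)) * X ^ (j : ℕ)) := by
    funext j
    rw [Polynomial.map_mul, Polynomial.map_pow, Polynomial.map_add, Polynomial.map_mul,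
      Polynomial.map_mul, Polynomial.map_expand, Polynomial.map_expand, Polynomial.map_X,
      Polynomial.map_C, map_C_red, map_C_red, coe_mapRingHom, Polynomial.map_X]
  rw [h2, h3, hN] at h1
  rw [coe_mapRingHom] at h1
  rw [Dg, h1, prod_list V p w hw hc (fun v => eval (C (v ^ 2))
    (Polynomial.expand K[X] 2 ((A.map red).map C)
      + C X * X * Polynomial.expand K[X] 2 ((B.map red).map C)))]
  refine prod_congr rfl (fun v _ => ?_)
  congr 1
  rw [eval_add, eval_mul, eval_mul, eval_C, eval_X, expand_eval, expand_eval, ← C_pow,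
    eval_map_C_C, eval_map_C_C, C_mul]
  ring

theorem partII (hE2 : ST_E2) (hC4 : ST_C4) (hN : ST_NORM) (hh : 2 ≤ h)
    (hsurj : Function.Surjective red)
    (hα : ∀ x, α * x = 0 ↔ red x = 0) (hunit : ∀ x, red x ≠ 0 → IsUnit x)
    (hF : FO red α h S g f) (h0 : (0 : K) ∉ V) (hp : ∀ v ∈ V, 1 ≤ p v) (hM : Mi ⊆ V)
    (hS : S.map red = ∏ v ∈ V, (X - C (v ^ 2)) ^ (p v))
    (hg : g.map red = ∑ ρ ∈ Mi, C ρ * ∏ v ∈ V, (X - C (v ^ 2)) ^ (pm p ρ v))
    (jj : ℕ) (hjj : 2 ≤ jj) (hjk : h + jj ≤ 2 * h)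
    (hrel : ∀ z : Fin (2 * h), h ≤ (z : ℕ) → Rel f (h + jj) (u2 (2 * h) h jj z)) :
    ∀ j : K → ℕ, (∀ v ∈ V, Odd ((p v).choose (j v))) →
    ∀ y, ∑ v ∈ V, j v = 2 * y →
      ∑ x ∈ antidiagonal y, PowerSeries.coeff x.1 (H0 red S) * ∑ ρ ∈ Mi, ρ ^ (2 * x.2 + 1) = 0 := by
  intro j hj y hy
  have := nontriv (Lam := Lam)
  have hinf : Infinite K := IsAlgClosed.instInfinite
  have hle : ∀ v ∈ V, j v ≤ p v := by
    intro v hv
    by_contra hcon
    push Not at hcon
    have := hj v hv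
    rw [Nat.choose_eq_zero_of_lt hcon] at this
    exact absurd this (by decide)
  have hsum : ∑ v ∈ V, (p v - j v) + ∑ v ∈ V, j v = h := by
    rw [← sum_p hF hS, ← sum_add_distrib]
    exact sum_congr rfl (fun v hv => Nat.sub_add_cancel (hle v hv))
  rw [← red_odd hF hS hp hM hg, ← hα, ← neg_eq_zero, ← coeff_odd hF (by omega) (Hf f) (Hf_mul hF)]
  obtain ⟨a, b, hab⟩ := extract_two' V h0 p (fun v => p v - j v) (fun v hv => by
    rw [Nat.choose_symm (hle v hv)]
    exact cast_ne_zero_of_odd _ (hj v hv))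
  obtain ⟨A, hA⟩ := interp red hsurj V (fun v => (v ^ 2) ^ 2) (pow4_inj.injOn) a
  obtain ⟨B, hB⟩ := interp red hsurj V (fun v => (v ^ 2) ^ 2) (pow4_inj.injOn) b
  set i0 := ∑ v ∈ V, (p v - j v) with hi0
  have hDu : IsUnit ((Dg h S A B).coeff i0) := by
    apply hunit
    rw [← coeff_map, Dg_red hN hF hS]
    intro h1
    apply hab
    rw [← h1]
    congr 1
    refine prod_congr rfl (fun v hv => ?_)
    rw [hA v hv, hB v hv]
  have hz := poly_zero red hsurj hunit (h + 1)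
    (fun i => PowerSeries.coeff (h + 1 - i) (Hf f) * (Dg h S A B).coeff i) ?_ i0 (by omega)
  · have h1 : PowerSeries.coeff (h + 1 - i0) (Hf f) = 0 := by
      obtain ⟨u, hu⟩ := hDu
      rw [← hu] at hz
      exact (Units.mul_left_eq_zero u).1 hz
    rw [show h + 1 - i0 = 2 * y + 1 by omega] at h1
    exact h1
  · intro μ
    have h1 := hE2 Lam (2 * h) h jj (by omega) hjj hjk f (fo_monic hF) (fo_natDegree hF)
      (f_unit hF hunit h0 hS) hrel
      (Polynomial.expand Lam 2 (Polynomial.expand Lam 2 A)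
        + X * C μ * Polynomial.expand Lam 2 (Polynomial.expand Lam 2 B)) X (Hf f) (Hf_mul hF)
    rw [c4_poly (K := K) hC4 hF, coeff_mul_coe] at h1
    refine Eq.trans (sum_congr rfl (fun i _ => ?_)) h1
    rw [comp_C_mul_X_coeff]
    ring

/-- **C5** -/
theorem st_core2 (hE2 : ST_E2) (hC3 : ST_C3) (hC4 : ST_C4) (hN : ST_NORM) (hEnd : ST_END)
    (hh : 2 ≤ h) (hsurj : Function.Surjective red)
    (hα : ∀ x, α * x = 0 ↔ red x = 0) (hunit : ∀ x, red x ≠ 0 → IsUnit x)
    (hF : FO red α h S g f) (h0 : (0 : K) ∉ V) (hp : ∀ v ∈ V, 1 ≤ p v) (hM : Mi ⊆ V)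
    (hMne : Mi.Nonempty)
    (hS : S.map red = ∏ v ∈ V, (X - C (v ^ 2)) ^ (p v))
    (hg : g.map red = ∑ ρ ∈ Mi, C ρ * ∏ v ∈ V, (X - C (v ^ 2)) ^ (pm p ρ v))
    (jj : ℕ) (hjj : 3 ≤ jj) (hjk : h - 1 + jj ≤ 2 * h)
    (hrel : ∀ z : Fin (2 * h), h - 1 ≤ (z : ℕ) → Rel f (h - 1 + jj) (u2 (2 * h) (h - 1) jj z))
    (hrel' : ∀ z : Fin (2 * h), h ≤ (z : ℕ) → Rel f (h + (jj - 1)) (u2 (2 * h) h (jj - 1) z)) :
    False :=
  hEnd K V p Mi h0 hp hM hMne (H0 red S) (H0_mul hF hS)
    (partI hE2 hC3 hh hsurj hα hunit hF h0 hp hM hS hg jj (by omega) hjk hrel)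
    (partII hE2 hC4 hN hh hsurj hα hunit hF h0 hp hM hS hg (jj - 1) (by omega) (by omega) hrel')

end

end Pool.Agent.Helper23.CYC
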