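import Mathlib

/-!
# Extraction of coefficients from identities in free scalars (track C, pieces X1, X2)
-/

set_option autoImplicit false

namespace Pool.Agent.Helper23.CYC

open Finset Polynomial

section

variable {K : Type*} [Field K] {ι : Type*}

/-- one factor -/
lemma factor_eq (q : ℕ) (v : ι) :
    ((C (MvPolynomial.X (Sum.inl v)) + C (MvPolynomial.X (Sum.inr v)) * X) ^ q :
      (MvPolynomial (ι ⊕ ι) K)[X])
      = ∑ i ∈ range (q + 1), C (MvPolynomial.monomial
          (Finsupp.single (Sum.inl v) (q - i) + Finsupp.single (Sum.inr v) i)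
            ((q.choose i : ℕ) : K)) * X ^ i := by
  rw [add_comm, add_pow]
  refine sum_congr rfl (fun i _ => ?_)
  have h : (MvPolynomial.monomial
      (Finsupp.single (Sum.inl v) (q - i) + Finsupp.single (Sum.inr v) i)
            ((q.choose i : ℕ) : K) : MvPolynomial (ι ⊕ ι) K)
      = MvPolynomial.X (Sum.inr v) ^ i * MvPolynomial.X (Sum.inl v) ^ (q - i)
        * ((q.choose i : ℕ) : MvPolynomial (ι ⊕ ι) K) := by
    rw [MvPolynomial.X_pow_eq_monomial, MvPolynomial.X_pow_eq_monomial,
      MvPolynomial.monomial_mul, ← MvPolynomial.C_eq_coe_nat, mul_comm, MvPolynomial.C_mul_monomial,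
      add_comm, mul_one, mul_one]
  rw [h]
  simp only [map_mul, map_pow, mul_pow]
  rw [show (C ((q.choose i : ℕ) : MvPolynomial (ι ⊕ ι) K) : (MvPolynomial (ι ⊕ ι) K)[X])
    = ((q.choose i : ℕ) : (MvPolynomial (ι ⊕ ι) K)[X]) from by simp]
  ring

lemma prod_monomial {σ α : Type*} [DecidableEq α] (s : Finset α) (m : α → σ →₀ ℕ) (c : α → K) :
    ∏ v ∈ s, (MvPolynomial.monomial (m v) (c v) : MvPolynomial σ K)
      = MvPolynomial.monomial (∑ v ∈ s, m v) (∏ v ∈ s, c v) := by
  induction s using Finset.induction_on with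
  | empty => simp
  | insert a s ha ih =>
    rw [prod_insert ha, ih, MvPolynomial.monomial_mul, sum_insert ha, prod_insert ha]

variable [Fintype ι] [DecidableEq ι]

/-- the exponent of the monomial `∏ a_v^{q_v - j_v} b_v^{j_v}` -/
noncomputable def expo (q j : ι → ℕ) : (ι ⊕ ι) →₀ ℕ :=
  ∑ v, (Finsupp.single (Sum.inl v) (q v - j v) + Finsupp.single (Sum.inr v) (j v))

lemma expo_inl (q j : ι → ℕ) (v : ι) : expo q j (Sum.inl v) = q v - j v := by
  rw [expo, Finsupp.finset_sum_apply]
  rw [Finset.sum_eq_single v]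
  · simp
  · intro b _ hb
    simp [Finsupp.single_apply, hb]
  · intro h; exact absurd (mem_univ _) h

lemma expo_inr (q j : ι → ℕ) (v : ι) : expo q j (Sum.inr v) = j v := by
  rw [expo, Finsupp.finset_sum_apply]
  rw [Finset.sum_eq_single v]
  · simp
  · intro b _ hb
    simp [Finsupp.single_apply, hb]
  · intro h; exact absurd (mem_univ _) h

/-- The generic product `∏_v (a_v + b_v X)^{q_v}`. -/
noncomputable def gprod (K : Type*) [Field K] {ι : Type*} [Fintype ι] (q : ι → ℕ) :
    (MvPolynomial (ι ⊕ ι) K)[X] :=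
  ∏ v, (C (MvPolynomial.X (Sum.inl v)) + C (MvPolynomial.X (Sum.inr v)) * X) ^ q v

omit [DecidableEq ι] in
lemma gprod_eval (q : ι → ℕ) (a b : ι → K) (n : ℕ) :
    MvPolynomial.eval (Sum.elim a b) ((gprod K q).coeff n)
      = (∏ v, (C (a v) + C (b v) * X) ^ q v : K[X]).coeff n := by
  rw [← Polynomial.coeff_map (MvPolynomial.eval (Sum.elim a b))]
  congr 1
  rw [gprod, Polynomial.map_prod]
  refine prod_congr rfl (fun v _ => ?_)
  simp

lemma gprod_eq (q : ι → ℕ) : gprod K q
    = ∑ j ∈ Fintype.piFinset (fun v => range (q v + 1)),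
        C (MvPolynomial.monomial (expo q j) (∏ v, ((q v).choose (j v) : K))) * X ^ (∑ v, j v) := by
  rw [gprod, prod_congr rfl (fun v _ => factor_eq (K := K) (q v) v), Finset.prod_univ_sum]
  refine sum_congr rfl (fun j _ => ?_)
  rw [prod_mul_distrib, ← map_prod, prod_monomial, prod_pow_eq_pow_sum]
  rfl

lemma gprod_coeff (q : ι → ℕ) (n : ℕ) (e : (ι ⊕ ι) →₀ ℕ) :
    ((gprod K q).coeff n).coeff e
      = ∑ j ∈ Fintype.piFinset (fun v => range (q v + 1)),
        if ∑ v, j v = n ∧ expo q j = e then ∏ v, ((q v).choose (j v) : K) else 0 := by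
  rw [gprod_eq, finset_sum_coeff, MvPolynomial.coeff_sum]
  refine sum_congr rfl (fun j _ => ?_)
  rw [coeff_C_mul, coeff_X_pow]
  by_cases h : ∑ v, j v = n
  · rw [if_pos h.symm, mul_one, MvPolynomial.coeff_monomial]
    by_cases h2 : expo q j = e
    · rw [if_pos h2, if_pos ⟨h, h2⟩]
    · rw [if_neg h2, if_neg (fun h3 => h2 h3.2)]
  · rw [if_neg (fun h3 => h h3.symm), mul_zero, MvPolynomial.coeff_zero,
      if_neg (fun h3 => h h3.1)]

/-- the coefficient of the generic product at its own monomial -/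
lemma gprod_coeff_self (q j : ι → ℕ) (hj : ∀ v, ((q v).choose (j v) : K) ≠ 0) (n : ℕ) :
    ((gprod K q).coeff n).coeff (expo q j)
      = if ∑ v, j v = n then ∏ v, ((q v).choose (j v) : K) else 0 := by
  rw [gprod_coeff]
  have hle : ∀ v, j v ≤ q v := by
    intro v
    by_contra h
    push Not at h
    exact hj v (by rw [Nat.choose_eq_zero_of_lt h, Nat.cast_zero])
  have hmem : j ∈ Fintype.piFinset (fun v => range (q v + 1)) := by
    rw [Fintype.mem_piFinset]
    intro v
    rw [mem_range]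
    have := hle v
    omega
  rw [Finset.sum_eq_single_of_mem j hmem]
  · by_cases h : ∑ v, j v = n
    · rw [if_pos ⟨h, rfl⟩, if_pos h]
    · rw [if_neg (fun h3 => h h3.1), if_neg h]
  · intro j' _ hne
    rw [if_neg]
    rintro ⟨-, h⟩
    apply hne
    funext v
    rw [← expo_inr q j' v, h, expo_inr]

/-- the coefficient of another generic product at this monomial vanishes -/
lemma gprod_coeff_other (q q' j : ι → ℕ) (hj : ∀ v, ((q v).choose (j v) : K) ≠ 0)
    (hq : q ≠ q') (n : ℕ) :
    ((gprod K q').coeff n).coeff (expo q j) = 0 := by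
  rw [gprod_coeff]
  have hle : ∀ v, j v ≤ q v := by
    intro v
    by_contra h
    push Not at h
    exact hj v (by rw [Nat.choose_eq_zero_of_lt h, Nat.cast_zero])
  refine sum_eq_zero (fun j' hj' => ?_)
  rw [if_neg]
  rintro ⟨-, h⟩
  rw [Fintype.mem_piFinset] at hj'
  have h1 : j' = j := by
    funext v
    rw [← expo_inr q' j' v, h, expo_inr]
  apply hq
  funext v
  have h2 := congrArg (fun e => e (Sum.inl v)) h
  simp only [expo_inl] at h2
  have h3 := hj' v
  rw [mem_range] at h3
  rw [h1] at h2 h3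
  have := hle v
  omega

/-- **X1** -/
theorem extract_one [Infinite K] (Mn : Finset ι) (c : ι → K) (p : ι → ℕ) (N : ℕ) (Hc : ℕ → K)
    (hp : ∀ ρ ∈ Mn, 1 ≤ p ρ)
    (h : ∀ a b : ι → K, ∑ ρ ∈ Mn, c ρ * ∑ n ∈ range (N + 1), Hc (N - n) *
      (∏ v, (C (a v) + C (b v) * X) ^ (p v - if v = ρ then 1 else 0) : K[X]).coeff n = 0)
    (ρ : ι) (hρ : ρ ∈ Mn) (hc : c ρ ≠ 0) (j : ι → ℕ)
    (hj : ∀ v, ((p v - if v = ρ then 1 else 0).choose (j v) : K) ≠ 0) (hN : ∑ v, j v ≤ N) :
    Hc (N - ∑ v, j v) = 0 := by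
  set P : MvPolynomial (ι ⊕ ι) K := ∑ ρ ∈ Mn, MvPolynomial.C (c ρ) * ∑ n ∈ range (N + 1),
    MvPolynomial.C (Hc (N - n)) *
      (gprod K (fun v => p v - if v = ρ then 1 else 0)).coeff n with hP
  have hP0 : P = 0 := by
    apply MvPolynomial.funext
    intro x
    have hx : x = Sum.elim (fun v => x (Sum.inl v)) (fun v => x (Sum.inr v)) := by
      funext y; rcases y with y | y <;> rfl
    rw [hx, map_zero, hP]
    simp only [map_sum, map_mul, MvPolynomial.eval_C, gprod_eval]
    exact h _ _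
  have hcoef := congrArg (fun Q => MvPolynomial.coeff (expo (fun v => p v - if v = ρ then 1 else 0) j) Q) hP0
  simp only [hP, MvPolynomial.coeff_sum, MvPolynomial.coeff_C_mul, MvPolynomial.coeff_zero]
    at hcoef
  rw [Finset.sum_eq_single_of_mem ρ hρ] at hcoef
  · rw [Finset.sum_eq_single_of_mem (∑ v, j v) (mem_range.2 (by omega))] at hcoef
    · rw [gprod_coeff_self _ _ hj, if_pos rfl] at hcoef
      have h1 : (∏ v, ((p v - if v = ρ then 1 else 0).choose (j v) : K)) ≠ 0 :=
        prod_ne_zero_iff.2 (fun v _ => hj v)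
      rcases mul_eq_zero.1 hcoef with h2 | h2
      · exact absurd h2 hc
      · rcases mul_eq_zero.1 h2 with h3 | h3
        · exact h3
        · exact absurd h3 h1
    · intro n _ hn
      rw [gprod_coeff_self _ _ hj, if_neg (fun h => hn h.symm), mul_zero]
  · intro ρ' hρ' hne
    have h1 : (fun v => p v - if v = ρ then 1 else 0) ≠ (fun v => p v - if v = ρ' then 1 else 0) := by
      intro heq
      have h2 := congrFun heq ρ'
      have h3 := hp ρ' hρ'
      rw [if_neg hne] at h2
      simp only [if_true] at h2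
      omega
    rw [Finset.sum_eq_zero, mul_zero]
    intro n _
    rw [gprod_coeff_other _ _ _ hj h1, mul_zero]

/-- **X2** -/
theorem extract_two [Infinite K] (p : ι → ℕ) (d : ι → K) (hd : ∀ v, d v ≠ 0) (j : ι → ℕ)
    (hj : ∀ v, ((p v).choose (j v) : K) ≠ 0) :
    ∃ a b : ι → K,
      (∏ v, (C (a v) + C (d v * b v) * X) ^ (p v) : K[X]).coeff (∑ v, j v) ≠ 0 := by
  by_contra hcon
  push Not at hcon
  have hP0 : (gprod K p).coeff (∑ v, j v) = 0 := by
    apply MvPolynomial.funext
    intro x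
    have hx : x = Sum.elim (fun v => x (Sum.inl v)) (fun v => x (Sum.inr v)) := by
      funext y; rcases y with y | y <;> rfl
    rw [hx, map_zero, gprod_eval]
    have := hcon (fun v => x (Sum.inl v)) (fun v => (d v)⁻¹ * x (Sum.inr v))
    rw [← this]
    congr 1
    refine prod_congr rfl (fun v _ => ?_)
    rw [← mul_assoc, mul_inv_cancel₀ (hd v), one_mul]
  have h1 := gprod_coeff_self (K := K) p j hj (∑ v, j v)
  rw [hP0, if_pos rfl, MvPolynomial.coeff_zero] at h1
  exact prod_ne_zero_iff.2 (fun v _ => hj v) h1.symm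

end

end Pool.Agent.Helper23.CYC
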