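import Mathlib

/-!
# Listing roots with multiplicities
-/

set_option autoImplicit false

namespace Pool.Agent.Helper23.CYC

open Finset

lemma exists_list {K : Type*} [DecidableEq K] (V : Finset K) (p : K → ℕ) (h : ℕ)
    (hh : ∑ v ∈ V, p v = h) :
    ∃ w : Fin h → K, (∀ i, w i ∈ V) ∧ ∀ v ∈ V, (univ.filter (fun i => w i = v)).card = p v := by
  have hcard : Fintype.card (Σ v : V, Fin (p v)) = h := by
    rw [Fintype.card_sigma]
    simp only [Fintype.card_fin]
    rw [← hh]
    exact Finset.sum_coe_sort V p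
  let e : Fin h ≃ (Σ v : V, Fin (p v)) := (Fintype.equivFinOfCardEq hcard).symm
  refine ⟨fun i => (e i).1, fun i => (e i).1.2, ?_⟩
  intro v hv
  have h1 : (univ.filter (fun i => ((e i).1 : K) = v)).card
      = (univ.filter (fun x : (Σ v : V, Fin (p v)) => (x.1 : K) = v)).card := by
    refine Finset.card_bij (fun i _ => e i) ?_ ?_ ?_
    · intro i hi
      rw [mem_filter] at hi ⊢
      exact ⟨mem_univ _, hi.2⟩
    · intro a _ b _ hab
      exact e.injective hab
    · intro x hx
      rw [mem_filter] at hx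
      refine ⟨e.symm x, ?_, by simp⟩
      rw [mem_filter]
      simpa using hx.2
  rw [h1]
  have h2 : (univ.filter (fun x : (Σ v : V, Fin (p v)) => (x.1 : K) = v))
      = (univ : Finset (Fin (p v))).map
        ⟨fun i => (⟨⟨v, hv⟩, i⟩ : (Σ v : V, Fin (p v))), fun a b hab => by simpa using hab⟩ := by
    ext ⟨⟨u, hu⟩, i⟩
    simp only [mem_filter, mem_univ, true_and, mem_map]
    constructor
    · intro h
      subst h
      exact ⟨i, rfl⟩
    · rintro ⟨a, ha⟩
      have := congrArg (fun x : (Σ v : V, Fin (p v)) => (x.1 : K)) ha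
      exact this.symm
  rw [h2, card_map, card_univ, Fintype.card_fin]

lemma prod_list {K : Type*} [DecidableEq K] {M : Type*} [CommMonoid M] (V : Finset K) (p : K → ℕ)
    {h : ℕ} (w : Fin h → K) (hw : ∀ i, w i ∈ V)
    (hc : ∀ v ∈ V, (univ.filter (fun i => w i = v)).card = p v) (F : K → M) :
    ∏ i, F (w i) = ∏ v ∈ V, F v ^ p v := by
  rw [← Finset.prod_fiberwise_of_maps_to (s := univ) (t := V) (g := w) (fun i _ => hw i)]
  refine prod_congr rfl (fun v hv => ?_)
  rw [← hc v hv, ← Finset.prod_const]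
  refine prod_congr rfl (fun i hi => ?_)
  rw [(mem_filter.1 hi).2]

lemma prod_list_erase {K : Type*} [DecidableEq K] {M : Type*} [CommMonoid M] (V : Finset K)
    (p : K → ℕ) {h : ℕ} (w : Fin h → K) (hw : ∀ i, w i ∈ V)
    (hc : ∀ v ∈ V, (univ.filter (fun i => w i = v)).card = p v) (F : K → M) (m : Fin h) :
    ∏ i ∈ univ.erase m, F (w i) = ∏ v ∈ V, F v ^ (p v - if v = w m then 1 else 0) := by
  rw [← Finset.prod_fiberwise_of_maps_to (s := univ.erase m) (t := V) (g := w)
    (fun i _ => hw i)]
  refine prod_congr rfl (fun v hv => ?_)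
  have h1 : ((univ.erase m).filter (fun i => w i = v)).card = p v - if v = w m then 1 else 0 := by
    rw [Finset.filter_erase]
    by_cases hv' : v = w m
    · have hm : m ∈ univ.filter (fun i => w i = v) := mem_filter.2 ⟨mem_univ _, hv'.symm⟩
      rw [if_pos hv', card_erase_of_mem hm, hc v hv]
    · rw [if_neg hv', erase_eq_of_notMem, hc v hv, Nat.sub_zero]
      intro h2
      exact hv' (mem_filter.1 h2).2.symm
  rw [← h1, ← Finset.prod_const]
  refine prod_congr rfl (fun i hi => ?_)
  rw [(mem_filter.1 hi).2]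

end Pool.Agent.Helper23.CYC
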