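import Pool.Agent.Helper42.CYC.StmtsC

/-!
# Power series of the reversed polynomial
-/

set_option autoImplicit false

namespace Pool.Agent.Helper23.CYC

open Finset Polynomial Pool.Agent.Helper42.CYC

section rev

variable {Lam K : Type} [CommRing Lam] [CommRing K] {red : Lam →+* K} {α : Lam} {h : ℕ}
  {S g f : Lam[X]}

lemma fo_coeff_even (hF : FO red α h S g f) (a : ℕ) : f.coeff (2 * a) = S.coeff a := by
  rw [hF.eq, coeff_add, mul_assoc, coeff_C_mul, coeff_expand (by norm_num) , if_pos ⟨a, rfl⟩,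
    Nat.mul_div_cancel_left _ (by norm_num : 0 < 2)]
  rcases a with _ | a
  · simp
  · rw [show 2 * (a + 1) = (2 * a + 1) + 1 by ring, coeff_X_mul, coeff_expand (by norm_num),
      if_neg (by omega), mul_zero, add_zero]

lemma fo_coeff_odd (hF : FO red α h S g f) (a : ℕ) : f.coeff (2 * a + 1) = α * g.coeff a := by
  rw [hF.eq, coeff_add, mul_assoc, coeff_C_mul, coeff_expand (by norm_num), if_neg (by omega),
    coeff_X_mul, coeff_expand (by norm_num), if_pos ⟨a, rfl⟩,
    Nat.mul_div_cancel_left _ (by norm_num : 0 < 2), zero_add]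

lemma fo_g_zero (hF : FO red α h S g f) (a : ℕ) (ha : h ≤ a) : g.coeff a = 0 := by
  refine coeff_eq_zero_of_degree_lt (lt_of_lt_of_le hF.degg ?_)
  exact_mod_cast ha

lemma fo_S_zero (hF : FO red α h S g f) (a : ℕ) (ha : h < a) : S.coeff a = 0 := by
  refine coeff_eq_zero_of_natDegree_lt ?_
  rw [hF.deg]; exact ha

lemma fo_natDegree [Nontrivial Lam] (hF : FO red α h S g f) : f.natDegree = 2 * h := by
  have hle : f.natDegree ≤ 2 * h := by
    rw [natDegree_le_iff_coeff_eq_zero]
    intro N hN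
    rcases Nat.even_or_odd' N with ⟨a, rfl | rfl⟩
    · rw [fo_coeff_even hF, fo_S_zero hF a (by omega)]
    · rw [fo_coeff_odd hF, fo_g_zero hF a (by omega), mul_zero]
  refine le_antisymm hle (le_natDegree_of_ne_zero ?_)
  rw [fo_coeff_even hF]
  have := hF.monic.coeff_natDegree
  rw [hF.deg] at this
  rw [this]
  exact one_ne_zero

lemma fo_monic (hF : FO red α h S g f) : f.Monic := by
  rcases subsingleton_or_nontrivial Lam with hR | hR
  · exact Subsingleton.elim _ _
  · rw [Monic, leadingCoeff, fo_natDegree hF, fo_coeff_even hF]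
    have := hF.monic.coeff_natDegree
    rwa [hF.deg] at this

lemma fo_reverse [Nontrivial Lam] (hF : FO red α h S g f) (hh : 1 ≤ h) :
    f.reverse = Polynomial.expand Lam 2 S.reverse
      + C α * X * Polynomial.expand Lam 2 (g.reflect (h - 1)) := by
  ext n
  rw [coeff_reverse, fo_natDegree hF, coeff_add, mul_assoc, coeff_C_mul]
  rcases Nat.even_or_odd' n with ⟨a, rfl | rfl⟩
  · rw [coeff_expand (by norm_num), if_pos ⟨a, rfl⟩,
      Nat.mul_div_cancel_left _ (by norm_num : 0 < 2), coeff_reverse, hF.deg]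
    have h0 : (X * Polynomial.expand Lam 2 (g.reflect (h - 1)) : Lam[X]).coeff (2 * a) = 0 := by
      rcases a with _ | a
      · simp
      · rw [show 2 * (a + 1) = (2 * a + 1) + 1 by ring, coeff_X_mul, coeff_expand (by norm_num),
          if_neg (by omega)]
    rw [h0, mul_zero, add_zero]
    by_cases ha : a ≤ h
    · rw [revAt_le ha, revAt_le (by omega : 2 * a ≤ 2 * h), show 2 * h - 2 * a = 2 * (h - a) by omega,
        fo_coeff_even hF]
    · rw [revAt_eq_self_of_lt (by omega : h < a), revAt_eq_self_of_lt (by omega : 2 * h < 2 * a),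
        fo_coeff_even hF]
  · rw [coeff_expand (by norm_num), if_neg (by omega), zero_add, coeff_X_mul,
      coeff_expand (by norm_num), if_pos ⟨a, rfl⟩,
      Nat.mul_div_cancel_left _ (by norm_num : 0 < 2), coeff_reflect]
    by_cases ha : a ≤ h - 1
    · rw [revAt_le ha, revAt_le (by omega : 2 * a + 1 ≤ 2 * h),
        show 2 * h - (2 * a + 1) = 2 * (h - 1 - a) + 1 by omega, fo_coeff_odd hF]
    · rw [revAt_eq_self_of_lt (by omega : h - 1 < a),
        revAt_eq_self_of_lt (by omega : 2 * h < 2 * a + 1), fo_coeff_odd hF]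

end rev

/-- `expand` and the coercion to power series -/
lemma coe_expand {R : Type} [CommRing R] (P : R[X]) :
    ((Polynomial.expand R 2 P : R[X]) : PowerSeries R)
      = PowerSeries.expand 2 (by norm_num) (P : PowerSeries R) := by
  ext n
  rw [Polynomial.coeff_coe, PowerSeries.coeff_expand, coeff_expand (by norm_num)]
  simp only [Polynomial.coeff_coe]

section field

variable {K : Type} [Field K]

open Classical in
lemma natDegree_prodV (V : Finset K) (q : K → ℕ) :
    (∏ v ∈ V, (X - C (v ^ 2)) ^ (q v) : K[X]).natDegree = ∑ v ∈ V, q v := by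
  rw [natDegree_prod_of_monic _ _ (fun v _ => (monic_X_sub_C _).pow _)]
  refine sum_congr rfl (fun v _ => ?_)
  rw [(monic_X_sub_C _).natDegree_pow, natDegree_X_sub_C, mul_one]

lemma reverse_X_sub_C' (a : K) : (X - C a : K[X]).reverse = 1 - C a * X := by
  ext n
  rw [coeff_reverse, natDegree_X_sub_C]
  rcases n with _ | _ | n
  · simp
  · simp [coeff_one]
  · rw [revAt_eq_self_of_lt (by omega)]
    simp [coeff_X, coeff_one]

lemma reverse_pow' (P : K[X]) (n : ℕ) : (P ^ n).reverse = P.reverse ^ n := by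
  induction n with
  | zero => simp [reverse]
  | succ n ih => rw [pow_succ, reverse_mul_of_domain, ih, pow_succ]

lemma reverse_prodV (V : Finset K) (q : K → ℕ) :
    (∏ v ∈ V, (X - C (v ^ 2)) ^ (q v) : K[X]).reverse = ∏ v ∈ V, (1 - C (v ^ 2) * X) ^ (q v) := by
  classical
  induction V using Finset.induction_on with
  | empty => simp [reverse]
  | insert a s ha ih =>
    rw [prod_insert ha, prod_insert ha, reverse_mul_of_domain, ih, reverse_pow',
      reverse_X_sub_C']

lemma coe_prodV (V : Finset K) (q : K → ℕ) :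
    ((∏ v ∈ V, (1 - C (v ^ 2) * X) ^ (q v) : K[X]) : PowerSeries K)
      = ∏ v ∈ V, (1 - PowerSeries.C (v ^ 2) * PowerSeries.X) ^ (q v) := by
  have h1 := map_prod (Polynomial.coeToPowerSeries.ringHom (R := K))
    (fun v => (1 - C (v ^ 2) * X) ^ (q v)) V
  simp only [Polynomial.coeToPowerSeries.ringHom_apply] at h1
  rw [h1]
  refine prod_congr rfl (fun v _ => ?_)
  rw [Polynomial.coe_pow, Polynomial.coe_sub, Polynomial.coe_one, Polynomial.coe_mul,
    Polynomial.coe_C, Polynomial.coe_X]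

end field

section series

variable {Lam K : Type} [CommRing Lam] [Field K] [Nontrivial Lam] {red : Lam →+* K} {α : Lam}
  {h : ℕ} {S g f : Lam[X]}

/-- The inverse of the reversed `S`. -/
noncomputable def Ei (S : Lam[X]) : PowerSeries Lam :=
  PowerSeries.invOfUnit (S.reverse : PowerSeries Lam) 1

omit [Nontrivial Lam] in
lemma Ei_mul (hS : S.Monic) : (S.reverse : PowerSeries Lam) * Ei S = 1 := by
  refine PowerSeries.mul_invOfUnit _ 1 ?_
  rw [← PowerSeries.coeff_zero_eq_constantCoeff_apply, Polynomial.coeff_coe, coeff_zero_reverse,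
    hS.leadingCoeff]
  rfl

lemma series_eq (hF : FO red α h S g f) (hh : 1 ≤ h) (H : PowerSeries Lam)
    (hH : H * (f.reverse : PowerSeries Lam) = 1) :
    H = PowerSeries.expand 2 (by norm_num) (Ei S) - PowerSeries.C α * PowerSeries.X *
      PowerSeries.expand 2 (by norm_num)
        (((g.reflect (h - 1) : Lam[X]) : PowerSeries Lam) * Ei S * Ei S) := by
  set e := PowerSeries.expand (R := Lam) 2 (by norm_num) with he
  set E : PowerSeries Lam := (S.reverse : PowerSeries Lam) with hE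
  set G : PowerSeries Lam := ((g.reflect (h - 1) : Lam[X]) : PowerSeries Lam) with hG
  have h1 : E * Ei S = 1 := Ei_mul hF.monic
  have h2 : (f.reverse : PowerSeries Lam) = e E + PowerSeries.C α * PowerSeries.X * e G := by
    rw [fo_reverse hF hh]
    push_cast
    rw [coe_expand, coe_expand]
  have h3 : e E * e (Ei S) = 1 := by rw [← map_mul, h1, map_one]
  have h4 : (PowerSeries.C α : PowerSeries Lam) * PowerSeries.C α = 0 := by
    rw [← map_mul, hF.sq, map_zero]
  have h5 : (f.reverse : PowerSeries Lam) *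
      (e (Ei S) - PowerSeries.C α * PowerSeries.X * e (G * Ei S * Ei S)) = 1 := by
    rw [h2, map_mul, map_mul]
    linear_combination h3 * (1 - PowerSeries.C α * PowerSeries.X * e G * e (Ei S))
      - (PowerSeries.X ^ 2 * e G * e G * e (Ei S) * e (Ei S)) * h4
  calc H = H * ((f.reverse : PowerSeries Lam) *
      (e (Ei S) - PowerSeries.C α * PowerSeries.X * e (G * Ei S * Ei S))) := by rw [h5, mul_one]
    _ = _ := by rw [← mul_assoc, hH, one_mul]

lemma coeff_even (hF : FO red α h S g f) (hh : 1 ≤ h) (H : PowerSeries Lam)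
    (hH : H * (f.reverse : PowerSeries Lam) = 1) (y : ℕ) :
    PowerSeries.coeff (2 * y) H = PowerSeries.coeff y (Ei S) := by
  rw [series_eq hF hh H hH, map_sub, PowerSeries.coeff_expand_mul, mul_assoc,
    PowerSeries.coeff_C_mul]
  rcases y with _ | y
  · simp
  · rw [show 2 * (y + 1) = (2 * y + 1) + 1 by ring, PowerSeries.coeff_succ_X_mul,
      PowerSeries.coeff_expand_of_not_dvd _ _ _ (by omega), mul_zero, sub_zero]

lemma coeff_odd (hF : FO red α h S g f) (hh : 1 ≤ h) (H : PowerSeries Lam)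
    (hH : H * (f.reverse : PowerSeries Lam) = 1) (y : ℕ) :
    PowerSeries.coeff (2 * y + 1) H = - (α * PowerSeries.coeff y
      (((g.reflect (h - 1) : Lam[X]) : PowerSeries Lam) * Ei S * Ei S)) := by
  rw [series_eq hF hh H hH, map_sub, PowerSeries.coeff_expand_of_not_dvd _ _ _ (by omega),
    mul_assoc, PowerSeries.coeff_C_mul, PowerSeries.coeff_succ_X_mul,
    PowerSeries.coeff_expand_mul, zero_sub]

end series

section main

variable {Lam K : Type} [CommRing Lam] [Field K] [Nontrivial Lam] {red : Lam →+* K} {α : Lam}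
  {h : ℕ} {S g f : Lam[X]} {V : Finset K} {p : K → ℕ} {Mi : Finset K}

omit [Nontrivial Lam] in
lemma sum_p (hF : FO red α h S g f) (hS : S.map red = ∏ v ∈ V, (X - C (v ^ 2)) ^ (p v)) :
    ∑ v ∈ V, p v = h := by
  rw [← natDegree_prodV V p, ← hS, hF.monic.natDegree_map, hF.deg]

/-- the reduced inverse series -/
noncomputable def H0 (red : Lam →+* K) (S : Lam[X]) : PowerSeries K := (Ei S).map red

omit [Nontrivial Lam] in
lemma H0_mul (hF : FO red α h S g f) (hS : S.map red = ∏ v ∈ V, (X - C (v ^ 2)) ^ (p v)) :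
    H0 red S * ∏ v ∈ V, (1 - PowerSeries.C (v ^ 2) * PowerSeries.X) ^ (p v) = 1 := by
  have h1 := congrArg (PowerSeries.map red) (Ei_mul hF.monic)
  rw [map_mul, map_one] at h1
  have h2 : PowerSeries.map red (S.reverse : PowerSeries Lam)
      = ∏ v ∈ V, (1 - PowerSeries.C (v ^ 2) * PowerSeries.X) ^ (p v) := by
    rw [← Polynomial.polynomial_map_coe]
    have h3 : (S.reverse).map red = (S.map red).reverse := by
      rw [reverse, reverse, reflect_map, hF.monic.natDegree_map]
    rw [h3, hS, reverse_prodV, coe_prodV]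
  rw [← h2, mul_comm]
  exact h1

open Classical in
omit [Nontrivial Lam] [Field K] in
lemma prod_pm_mul {M : Type} [CommMonoid M] (F : K → M) (ρ : K) (hρ : ρ ∈ V) (hp : 1 ≤ p ρ) :
    (∏ v ∈ V, F v ^ (pm p ρ v)) * F ρ = ∏ v ∈ V, F v ^ (p v) := by
  rw [← Finset.prod_erase_mul _ _ hρ, ← Finset.prod_erase_mul V _ hρ, mul_assoc]
  congr 1
  · refine prod_congr rfl (fun v hv => ?_)
    rw [pm, if_neg (ne_of_mem_erase hv), Nat.sub_zero]
  · rw [pm, if_pos rfl, ← pow_succ, Nat.sub_add_cancel hp]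

open Classical in
omit [Nontrivial Lam] [Field K] in
lemma sum_pm (ρ : K) (hρ : ρ ∈ V) (hp : 1 ≤ p ρ) :
    ∑ v ∈ V, pm p ρ v + 1 = ∑ v ∈ V, p v := by
  rw [← Finset.sum_erase_add _ _ hρ, ← Finset.sum_erase_add V _ hρ, add_assoc]
  congr 1
  · refine sum_congr rfl (fun v hv => ?_)
    rw [pm, if_neg (ne_of_mem_erase hv), Nat.sub_zero]
  · rw [pm, if_pos rfl, Nat.sub_add_cancel hp]

omit [Nontrivial Lam] in
lemma geom (a : K) : (1 - PowerSeries.C a * PowerSeries.X) * PowerSeries.mk (fun n => a ^ n)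
    = (1 : PowerSeries K) := by
  ext n
  rw [sub_mul, one_mul, map_sub, PowerSeries.coeff_mk, mul_assoc, PowerSeries.coeff_C_mul]
  rcases n with _ | n
  · simp
  · rw [PowerSeries.coeff_succ_X_mul, PowerSeries.coeff_mk, PowerSeries.coeff_one,
      if_neg (Nat.succ_ne_zero n)]
    ring

omit [Nontrivial Lam] in
lemma gamma_mul (hF : FO red α h S g f) (hS : S.map red = ∏ v ∈ V, (X - C (v ^ 2)) ^ (p v))
    (hp : ∀ v ∈ V, 1 ≤ p v) (hM : Mi ⊆ V)
    (hg : g.map red = ∑ ρ ∈ Mi, C ρ * ∏ v ∈ V, (X - C (v ^ 2)) ^ (pm p ρ v)) :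
    PowerSeries.map red ((g.reflect (h - 1) : Lam[X]) : PowerSeries Lam) * H0 red S
      = PowerSeries.mk (fun l => ∑ ρ ∈ Mi, ρ ^ (2 * l + 1)) := by
  have h1 : PowerSeries.map red ((g.reflect (h - 1) : Lam[X]) : PowerSeries Lam)
      = ∑ ρ ∈ Mi, PowerSeries.C ρ *
        ∏ v ∈ V, (1 - PowerSeries.C (v ^ 2) * PowerSeries.X) ^ (pm p ρ v) := by
    rw [← Polynomial.polynomial_map_coe, ← reflect_map, hg]
    have h2 : (∑ ρ ∈ Mi, C ρ * ∏ v ∈ V, (X - C (v ^ 2)) ^ (pm p ρ v) : K[X]).reflect (h - 1)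
        = ∑ ρ ∈ Mi, C ρ * ∏ v ∈ V, (1 - C (v ^ 2) * X) ^ (pm p ρ v) := by
      have h3 : ∀ (s : Finset K) (F : K → K[X]), (∑ ρ ∈ s, F ρ).reflect (h - 1)
          = ∑ ρ ∈ s, (F ρ).reflect (h - 1) := by
        intro s F
        classical
        induction s using Finset.induction_on with
        | empty => simp
        | insert a s ha ih => rw [sum_insert ha, sum_insert ha, reflect_add, ih]
      rw [h3]
      refine sum_congr rfl (fun ρ hρ => ?_)
      rw [reflect_C_mul, ← reverse_prodV, reverse, natDegree_prodV]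
      have h4 := sum_pm (p := p) ρ (hM hρ) (hp ρ (hM hρ))
      rw [sum_p hF hS] at h4
      rw [show ∑ v ∈ V, pm p ρ v = h - 1 by omega]
    rw [h2]
    have h5 : ∀ (s : Finset K) (F : K → K[X]), ((∑ ρ ∈ s, F ρ : K[X]) : PowerSeries K)
          = ∑ ρ ∈ s, (F ρ : PowerSeries K) := by
      intro s F
      exact map_sum (Polynomial.coeToPowerSeries.ringHom (R := K)) F s
    rw [h5]
    refine sum_congr rfl (fun ρ _ => ?_)
    rw [Polynomial.coe_mul, Polynomial.coe_C, coe_prodV]
  rw [h1, sum_mul]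
  ext l
  rw [map_sum, PowerSeries.coeff_mk]
  refine sum_congr rfl (fun ρ hρ => ?_)
  have h6 : (∏ v ∈ V, (1 - PowerSeries.C (v ^ 2) * PowerSeries.X) ^ (pm p ρ v)) * H0 red S
      = PowerSeries.mk (fun n => (ρ ^ 2) ^ n) := by
    set U : PowerSeries K := (∏ v ∈ V, (1 - PowerSeries.C (v ^ 2) * PowerSeries.X) ^ (pm p ρ v))
      * H0 red S with hU
    have h7 : (1 - PowerSeries.C (ρ ^ 2) * PowerSeries.X) * U = 1 := by
      have h8 := prod_pm_mul (fun v => (1 - PowerSeries.C (v ^ 2) * PowerSeries.X :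
        PowerSeries K)) ρ (hM hρ) (hp ρ (hM hρ))
      have h9 := H0_mul hF hS
      rw [← h8] at h9
      refine Eq.trans ?_ h9
      rw [hU]
      ring
    calc U = U * ((1 - PowerSeries.C (ρ ^ 2) * PowerSeries.X) *
          PowerSeries.mk (fun n => (ρ ^ 2) ^ n)) := by rw [geom, mul_one]
      _ = ((1 - PowerSeries.C (ρ ^ 2) * PowerSeries.X) * U) *
          PowerSeries.mk (fun n => (ρ ^ 2) ^ n) := by ring
      _ = _ := by rw [h7, one_mul]
  rw [mul_assoc, PowerSeries.coeff_C_mul, h6, PowerSeries.coeff_mk, ← pow_mul, pow_succ, mul_comm]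

omit [Nontrivial Lam] in
lemma red_odd (hF : FO red α h S g f) (hS : S.map red = ∏ v ∈ V, (X - C (v ^ 2)) ^ (p v))
    (hp : ∀ v ∈ V, 1 ≤ p v) (hM : Mi ⊆ V)
    (hg : g.map red = ∑ ρ ∈ Mi, C ρ * ∏ v ∈ V, (X - C (v ^ 2)) ^ (pm p ρ v)) (y : ℕ) :
    red (PowerSeries.coeff y (((g.reflect (h - 1) : Lam[X]) : PowerSeries Lam) * Ei S * Ei S))
      = ∑ x ∈ antidiagonal y, PowerSeries.coeff x.1 (H0 red S) *
          ∑ ρ ∈ Mi, ρ ^ (2 * x.2 + 1) := by
  have h1 := gamma_mul hF hS hp hM hg
  have h2 : PowerSeries.map red (((g.reflect (h - 1) : Lam[X]) : PowerSeries Lam) * Ei S * Ei S)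
      = H0 red S * PowerSeries.mk (fun l => ∑ ρ ∈ Mi, ρ ^ (2 * l + 1)) := by
    rw [← h1, map_mul, map_mul, H0]
    ring
  rw [← PowerSeries.coeff_map, h2, PowerSeries.coeff_mul]
  refine sum_congr rfl (fun x _ => ?_)
  rw [PowerSeries.coeff_mk]

end main

end Pool.Agent.Helper23.CYC
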