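import Pool.Agent.Helper23.CYC.C5a
import Pool.Agent.Helper23.CYC.C5b
import Pool.Agent.Helper23.CYC.C5c

/-!
# Tools for the assembly of C5
-/

set_option autoImplicit false

namespace Pool.Agent.Helper23.CYC

open Finset Polynomial Pool.Agent.Helper42.CYC Pool.Agent.Helper10.CYC

lemma poly_zero {Lam K : Type} [CommRing Lam] [Field K] [Infinite K] (red : Lam →+* K)
    (hsurj : Function.Surjective red) (hunit : ∀ x, red x ≠ 0 → IsUnit x) (N : ℕ) (c : ℕ → Lam)
    (hc : ∀ μ : Lam, ∑ i ∈ range (N + 1), c i * μ ^ i = 0) : ∀ i, i ≤ N → c i = 0 := by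
  let κ : Fin (N + 1) → K := fun i => Infinite.natEmbedding K (i : ℕ)
  have hκ : Function.Injective κ := fun a b hab =>
    Fin.ext ((Infinite.natEmbedding K).injective hab)
  choose μ hμ using fun i => hsurj (κ i)
  have hdet : IsUnit (Matrix.vandermonde μ).det := by
    apply hunit
    rw [Matrix.det_vandermonde, map_prod]
    refine prod_ne_zero_iff.2 (fun i _ => ?_)
    rw [map_prod]
    refine prod_ne_zero_iff.2 (fun j hj => ?_)
    rw [map_sub, hμ, hμ]
    rw [mem_Ioi] at hj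
    exact sub_ne_zero.2 (fun h => (ne_of_gt hj) (hκ h))
  have h1 : (Matrix.vandermonde μ).mulVec (fun j : Fin (N + 1) => c j) = 0 := by
    funext i
    rw [Pi.zero_apply, ← hc (μ i), ← Fin.sum_univ_eq_sum_range (fun j => c j * μ i ^ j)]
    rw [Matrix.mulVec, dotProduct]
    refine sum_congr rfl (fun j _ => ?_)
    rw [Matrix.vandermonde_apply, mul_comm]
  have h2 : (fun j : Fin (N + 1) => c j) = 0 := by
    have h3 := congrArg (fun v => ((Matrix.vandermonde μ)⁻¹).mulVec v) h1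
    simp only [Matrix.mulVec_mulVec, Matrix.nonsing_inv_mul _ hdet, Matrix.one_mulVec,
      Matrix.mulVec_zero] at h3
    exact h3
  intro i hi
  exact congrFun h2 ⟨i, by omega⟩

lemma interp {Lam K : Type} [CommRing Lam] [Field K] (red : Lam →+* K)
    (hsurj : Function.Surjective red) (V : Finset K) (nd : K → K)
    (hnd : Set.InjOn nd V) (a : K → K) :
    ∃ A : Lam[X], ∀ v ∈ V, (A.map red).eval (nd v) = a v := by
  classical
  obtain ⟨A, hA⟩ := Polynomial.map_surjective red hsurj (Lagrange.interpolate V nd a)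
  refine ⟨A, fun v hv => ?_⟩
  rw [hA]
  exact Lagrange.eval_interpolate_at_node a hnd hv

lemma sq_inj {K : Type} [Field K] [CharP K 2] : Function.Injective (fun v : K => v ^ 2) := by
  intro a b hab
  have := frobenius_inj K 2
  exact this hab

lemma pow4_inj {K : Type} [Field K] [CharP K 2] : Function.Injective (fun v : K => (v ^ 2) ^ 2) :=
  fun _ _ hab => sq_inj (sq_inj hab)

lemma cast_ne_zero_of_odd {K : Type} [Field K] [CharP K 2] (n : ℕ) (hn : Odd n) : (n : K) ≠ 0 := by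
  intro h
  rw [CharP.cast_eq_zero_iff K 2] at h
  rcases hn with ⟨a, rfl⟩
  omega

lemma sum_sub {M K : Type} [AddCommMonoid M] [DecidableEq K] (V Mi : Finset K) (hM : Mi ⊆ V)
    (F : K → M) :
    ∑ v ∈ (univ : Finset V).filter (fun v : V => (v : K) ∈ Mi), F (v : K) = ∑ ρ ∈ Mi, F ρ := by
  refine Finset.sum_bij (fun (v : V) _ => (v : K)) ?_ ?_ ?_ ?_
  · intro v hv
    exact (mem_filter.1 hv).2
  · intro a _ b _ hab
    exact Subtype.ext hab
  · intro b hb
    exact ⟨⟨b, hM hb⟩, mem_filter.2 ⟨mem_univ _, hb⟩, rfl⟩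
  · intro v _
    rfl

theorem extract_one' {K : Type} [Field K] [Infinite K] (V Mi : Finset K) (hM : Mi ⊆ V)
    (p : K → ℕ) (hp : ∀ v ∈ V, 1 ≤ p v) (N : ℕ) (Hc : ℕ → K)
    (h : ∀ a b : K → K, ∑ ρ ∈ Mi, ρ * ∑ n ∈ range (N + 1), Hc (N - n) *
      (∏ v ∈ V, (C (a v) + C (b v) * X) ^ (pm p ρ v) : K[X]).coeff n = 0)
    (ρ : K) (hρ : ρ ∈ Mi) (hc : ρ ≠ 0) (j : K → ℕ)
    (hj : ∀ v ∈ V, ((pm p ρ v).choose (j v) : K) ≠ 0) (hN : ∑ v ∈ V, j v ≤ N) :
    Hc (N - ∑ v ∈ V, j v) = 0 := by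
  classical
  have h1 : ∀ (ρ : V) (v : V), (p v - if v = ρ then 1 else 0) = pm p (ρ : K) (v : K) := by
    intro ρ v
    rw [pm]
    by_cases hv : v = ρ
    · rw [if_pos hv, if_pos (congrArg _ hv)]
    · rw [if_neg hv, if_neg (fun h => hv (Subtype.ext h))]
  have key := extract_one (K := K) (ι := V) ((univ : Finset V).filter (fun v => (v : K) ∈ Mi))
    (fun v => (v : K)) (fun v => p v) N Hc (fun ρ _ => hp ρ ρ.2) ?_ ⟨ρ, hM hρ⟩
    (mem_filter.2 ⟨mem_univ _, hρ⟩) hc (fun v => j v) ?_ ?_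
  · rw [← Finset.sum_coe_sort V j]
    exact key
  · intro a b
    have h2 := h (fun v => if hv : v ∈ V then a ⟨v, hv⟩ else 0)
      (fun v => if hv : v ∈ V then b ⟨v, hv⟩ else 0)
    rw [← sum_sub V Mi hM] at h2
    refine Eq.trans (sum_congr rfl (fun ρ _ => ?_)) h2
    congr 1
    refine sum_congr rfl (fun n _ => ?_)
    congr 2
    rw [← Finset.prod_coe_sort V]
    refine prod_congr rfl (fun v _ => ?_)
    rw [h1, dif_pos v.2, dif_pos v.2]
  · intro v
    rw [h1]
    exact hj v v.2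
  · rw [Finset.sum_coe_sort V j]
    exact hN

theorem extract_two' {K : Type} [Field K] [Infinite K] (V : Finset K) (h0 : (0 : K) ∉ V)
    (p : K → ℕ) (j : K → ℕ) (hj : ∀ v ∈ V, ((p v).choose (j v) : K) ≠ 0) :
    ∃ a b : K → K,
      (∏ v ∈ V, (C (a v) + C (v ^ 2 * b v) * X) ^ (p v) : K[X]).coeff (∑ v ∈ V, j v) ≠ 0 := by
  classical
  obtain ⟨a, b, hab⟩ := extract_two (K := K) (ι := V) (fun v => p v) (fun v => (v : K) ^ 2)
    (fun v => pow_ne_zero 2 (fun h => h0 (h ▸ v.2))) (fun v => j v) (fun v => hj v v.2)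
  refine ⟨fun v => if hv : v ∈ V then a ⟨v, hv⟩ else 0,
    fun v => if hv : v ∈ V then b ⟨v, hv⟩ else 0, ?_⟩
  rw [← Finset.sum_coe_sort V j]
  intro h
  apply hab
  rw [← h, ← Finset.prod_coe_sort V]
  congr 1
  refine prod_congr rfl (fun v _ => ?_)
  beta_reduce
  rw [dif_pos v.2, dif_pos v.2]

/-- First order data over the polynomial ring. -/
lemma fo_poly {Lam K : Type} [CommRing Lam] [CommRing K] {red : Lam →+* K} {α : Lam} {h : ℕ}
    {S g f : Lam[X]} (hF : FO red α h S g f) :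
    FO (Polynomial.mapRingHom red) (C α) h (S.map C) (g.map C) (f.map C) := by
  refine ⟨?_, ?_, ?_, ?_, ?_, ?_⟩
  · rw [← C_mul, hF.sq, C_0]
  · intro x hx
    ext n
    rw [coeff_C_mul, coeff_zero]
    refine hF.kill _ ?_
    rw [← coeff_map]
    rw [coe_mapRingHom] at hx
    rw [hx, coeff_zero]
  · exact hF.monic.map C
  · rw [natDegree_map_eq_of_injective C_injective, hF.deg]
  · exact lt_of_le_of_lt (degree_map_le) hF.degg
  · conv_lhs => rw [hF.eq]
    rw [Polynomial.map_add, Polynomial.map_mul, Polynomial.map_mul, Polynomial.map_expand,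
      Polynomial.map_expand, Polynomial.map_C, Polynomial.map_X]

lemma map_C_red {Lam K : Type} [CommRing Lam] [CommRing K] (red : Lam →+* K) (P : Lam[X]) :
    (P.map C).map (Polynomial.mapRingHom red) = (P.map red).map C := by
  rw [Polynomial.map_map, Polynomial.map_map]
  congr 1
  ext x
  simp

end Pool.Agent.Helper23.CYC
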