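import Pool.Agent.Helper23.CYC.C5
import Pool.Agent.Helper89.CYC.CoreT1
import Pool.Agent.Helper32.CYC.E2
import Pool.Agent.Helper65.CYC.C6

/-!
# ST_CORE, complete
-/

set_option autoImplicit false

namespace Pool.Agent.Helper23.CYC

open Finset Polynomial Pool.Agent.Helper42.CYC Pool.Agent.Helper10.CYC

/-- **C5 = ST_CORE** from the other pieces. -/
theorem st_core_of (hE2 : ST_E2) (hC3 : ST_C3) (hC4 : ST_C4) (hN : ST_NORM) (hEnd : ST_END) :
    ST_CORE := by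
  intro Lam K _ _ _ _ _ red α h hh S g f hsurj hα hunit hF V p Mi h0 hp hM hMne hS hg
  refine ⟨Pool.Agent.Helper89.CYC.core_T1 Lam K red α h hh S g f hsurj hα hunit hF V p Mi h0 hp
    hM hMne hS hg, ?_⟩
  rintro jj hjj hjk ⟨hr1, hr2⟩
  exact st_core2 hE2 hC3 hC4 hN hEnd hh hsurj hα hunit hF h0 hp hM hMne hS hg jj hjj hjk hr1 hr2

/-- **ST_CORE** -/
theorem st_core : ST_CORE :=
  st_core_of Pool.Agent.Helper32.CYC.st_e2 Pool.Agent.Helper89.CYC.st_c3
    Pool.Agent.Helper89.CYC.st_c4 Pool.Agent.Helper89.CYC.st_norm Pool.Agent.Helper65.CYC.st_end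

end Pool.Agent.Helper23.CYC
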